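import Pool.Agent.KS6_46.HP.Ind

/-!
# Fixed-point-free groups of piecewise isometries on every bounded set of the hyperbolic plane

`ℍ` is the hyperbolic plane (Mathlib's upper half plane with its hyperbolic metric).
-/

set_option autoImplicit false

open UpperHalfPlane

namespace Pool.Agent.Results.MP_e721cf_gt.EveryBoundedSet

open Pool.Agent.KS6_46.HP

/-- the bijection `f` of `X` is a piecewise isometry: `X` is partitioned into finitely many pieces
`{x | P x = i}` (`i < n`), and `f` agrees on the piece with number `i` with the isometry `g i` of the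
hyperbolic plane -/
def PiecewiseIsometry {X : Set ℍ} (f : Equiv.Perm X) : Prop :=
  ∃ (n : ℕ) (P : X → Fin n) (g : Fin n → ℍ ≃ᵢ ℍ), ∀ x : X, (f x : ℍ) = g (P x) x

theorem pw_of_fam {X : Set ℍ} {f : Equiv.Perm X} (h : Fam f) : PiecewiseIsometry f := by
  obtain ⟨S, hS, h⟩ := h
  obtain ⟨n, g, -, hg⟩ := hS.fin_param
  have : ∀ x : X, ∃ k, (f x : ℍ) = g k x := fun x => by
    obtain ⟨u, hu, h'⟩ := h x
    obtain ⟨k, rfl⟩ : u ∈ Set.range g := hg ▸ hu
    exact ⟨k, h'⟩
  choose P hP using this
  exact ⟨n, P, g, hP⟩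

/-- every countable virtually free group acts -/
theorem virt {X : Set ℍ} (hXb : Bornology.IsBounded X) (hXi : (interior X).Nonempty)
    (G : Type) [Group G] [Countable G] (H : Subgroup G) [H.FiniteIndex] [IsFreeGroup H] :
    ∃ ρ : G →* Equiv.Perm X, (∀ g, Fam (ρ g)) ∧ ∀ g x, ρ g x = x → g = 1 := by
  classical
  obtain ⟨φ, h1, h2⟩ := free_all hXb hXi
  have hinj : Function.Injective (IsFreeGroup.of (G := H)) := (IsFreeGroup.basis H).injective
  have : Countable (IsFreeGroup.Generators H) := hinj.countable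
  obtain ⟨ε, hε⟩ := exists_injective_nat (IsFreeGroup.Generators H)
  let θ : H →* Equiv.Perm X := (FreeGroup.lift φ).comp
    ((FreeGroup.map ε).comp (IsFreeGroup.toFreeGroup H).toMonoidHom)
  have hθ : ∀ h y, θ h y = y → h = 1 := fun h y hy => by
    have h3 := h2 _ _ hy
    have h4 : FreeGroup.map ε (IsFreeGroup.toFreeGroup H h) = FreeGroup.map ε 1 := by
      rw [map_one]; exact h3
    have h5 := FreeGroup.map_injective hε h4
    simpa using h5
  have hfam : ∀ h, Fam (θ h) := fun h => Fam.lift h1 _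
  have : Finite (G ⧸ H) := inferInstance
  obtain ⟨n, ⟨e⟩⟩ := Finite.exists_equiv_fin (G ⧸ H)
  obtain ⟨m, rfl⟩ : ∃ m, n = m + 1 := by
    cases n with
    | zero => exact (e (QuotientGroup.mk 1)).elim0
    | succ m => exact ⟨m, rfl⟩
  obtain ⟨S, k, hS, hk, hk'⟩ := copies hXb hXi m
  let E : X × (G ⧸ H) ≃ X := (Equiv.prodCongr (Equiv.refl X) e).trans k
  have hE : ∀ p, ∃ g ∈ S, (E p : ℍ) = g p.1 := fun p => hk (p.1, e p.2)
  have hE' : ∀ x, ∃ g ∈ S, ((E.symm x).1 : ℍ) = g x := fun x => hk' x
  let conj : Equiv.Perm (X × (G ⧸ H)) →* Equiv.Perm X := E.permCongrHom.toMonoidHom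
  have hconj : ∀ f x, conj f x = E (f (E.symm x)) := fun f x => rfl
  refine ⟨conj.comp (ind H θ), fun g => ?_, fun g x hx => ?_⟩
  · choose T hT hTx using fun q : G ⧸ H => hfam (coc H g q)
    refine ⟨mulS (mulS S (⋃ q, T q)) S,
      mulS_finite (mulS_finite hS (Set.finite_iUnion hT)) hS, fun x => ?_⟩
    obtain ⟨u, hu, hu'⟩ := hE' x
    obtain ⟨v, hv, hv'⟩ := hTx (E.symm x).2 (E.symm x).1
    obtain ⟨w, hw, hw'⟩ := hE (ind H θ g (E.symm x))
    refine ⟨_, mem_mulS (mem_mulS hu (Set.mem_iUnion.2 ⟨_, hv⟩)) hw, ?_⟩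
    rw [MonoidHom.comp_apply, hconj, hw', ind_apply, hv', hu']
    rfl
  · rw [MonoidHom.comp_apply, hconj] at hx
    have h3 : ind H θ g (E.symm x) = E.symm x := by
      apply E.injective
      rw [hx, Equiv.apply_symm_apply]
    exact ind_free H θ hθ g _ h3

/-- **Every** bounded subset `X` of the hyperbolic plane with nonempty interior carries two
independent piecewise isometries `φ`, `ψ` such that the group generated by them acts without
nontrivial fixed points.  More generally every countable group `G` with a free subgroup of finite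
index (for example every finite group, every countable free group, `PSL(2, ℤ)`) acts on every such
`X` by piecewise isometries so that no element other than the identity has a fixed point. -/
theorem result : ∀ X : Set ℍ, Bornology.IsBounded X → (interior X).Nonempty →
    (∃ φ ψ : Equiv.Perm X, PiecewiseIsometry φ ∧ PiecewiseIsometry ψ ∧
      Function.Injective (FreeGroup.lift ![φ, ψ]) ∧
      ∀ g ∈ Subgroup.closure {φ, ψ}, (∃ x : X, g x = x) → g = 1) ∧
    ∀ (G : Type) [Group G] [Countable G] (H : Subgroup G) [H.FiniteIndex] [IsFreeGroup H],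
      ∃ ρ : G →* Equiv.Perm X, Function.Injective ρ ∧ (∀ g, PiecewiseIsometry (ρ g)) ∧
        ∀ g, (∃ x : X, ρ g x = x) → g = 1 := by
  intro X hXb hXi
  have hne : Nonempty X := by
    obtain ⟨x, hx⟩ := hXi
    exact ⟨⟨x, interior_subset hx⟩⟩
  obtain ⟨x0⟩ := hne
  refine ⟨?_, fun G _ _ H _ _ => ?_⟩
  · obtain ⟨φ, h1, h2⟩ := free_all hXb hXi
    let ε : Fin 2 → ℕ := fun i => i
    have hε : Function.Injective ε := Fin.val_injective
    have e : FreeGroup.lift ![φ 0, φ 1] = (FreeGroup.lift φ).comp (FreeGroup.map ε) := by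
      ext1 i
      fin_cases i <;> simp [ε]
    have key : ∀ w : FreeGroup (Fin 2), ∀ x, FreeGroup.lift ![φ 0, φ 1] w x = x → w = 1 := by
      intro w x hx
      rw [e, MonoidHom.comp_apply] at hx
      have h3 := h2 _ _ hx
      exact FreeGroup.map_injective hε (h3.trans (map_one _).symm)
    refine ⟨φ 0, φ 1, pw_of_fam (h1 0), pw_of_fam (h1 1), ?_, ?_⟩
    · rw [injective_iff_map_eq_one]
      exact fun w hw => key w x0 (by rw [hw]; rfl)
    · rintro g hg ⟨x, hx⟩
      have hr : Set.range ![φ 0, φ 1] = {φ 0, φ 1} := by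
        rw [Matrix.range_cons, Matrix.range_cons, Matrix.range_empty, Set.union_empty]
        rfl
      rw [← hr, ← FreeGroup.range_lift_eq_closure] at hg
      obtain ⟨w, rfl⟩ := hg
      rw [key w x hx, map_one]
  · obtain ⟨ρ, h1, h2⟩ := virt hXb hXi G H
    refine ⟨ρ, ?_, fun g => pw_of_fam (h1 g), fun g ⟨x, hx⟩ => h2 g x hx⟩
    rw [injective_iff_map_eq_one]
    exact fun g hg => h2 g x0 (by rw [hg]; rfl)

end Pool.Agent.Results.MP_e721cf_gt.EveryBoundedSet
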